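import Pool.Agent.W192.CM.Parts

/-!
# CM-LAT: lattice points in a disc in a residue class
-/

set_option autoImplicit false

namespace Pool.Agent.W334.CM

open Complex Filter Topology Set Pool.Agent.W192.CM

theorem card_Icc_le (u v : ℝ) (h : u ≤ v) :
    ((Finset.Icc ⌈u⌉ ⌊v⌋).card : ℝ) ≤ v - u + 1 := by
  rw [Int.card_Icc]
  have h1 : ((⌊v⌋ + 1 - ⌈u⌉ : ℤ) : ℝ) ≤ v - u + 1 := by
    push_cast
    linarith [Int.floor_le v, Int.le_ceil u]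
  rcases le_total 0 (⌊v⌋ + 1 - ⌈u⌉) with h2 | h2
  · have h3 : (((⌊v⌋ + 1 - ⌈u⌉).toNat : ℤ) : ℝ) = ((⌊v⌋ + 1 - ⌈u⌉ : ℤ) : ℝ) := by
      rw [Int.toNat_of_nonneg h2]
    have h4 : ((⌊v⌋ + 1 - ⌈u⌉).toNat : ℝ) = (((⌊v⌋ + 1 - ⌈u⌉).toNat : ℤ) : ℝ) :=
      (Int.cast_natCast _).symm
    rw [h4, h3]
    exact h1
  · rw [Int.toNat_of_nonpos h2]
    push_cast
    linarith

theorem c_lat (hB : C_BASIC) : C_LAT := by
  intro R ω hR
  have hω := hR.im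
  refine ⟨5 / ω.im + 2, by positivity, fun κ hκ a y hy => ?_⟩
  have hκ' : (κ : ℂ) ≠ 0 := fun h => hκ (Subtype.ext h)
  have hN : 0 < Complex.normSq (κ : ℂ) := Complex.normSq_pos.2 hκ'
  set ρ : ℝ := Real.sqrt (y / Complex.normSq (κ : ℂ)) with hρ
  have hρ0 : 0 ≤ ρ := Real.sqrt_nonneg _
  have hρ2 : ρ ^ 2 = y / Complex.normSq (κ : ℂ) := Real.sq_sqrt (by positivity)
  set c : ℂ := (a : ℂ) / (κ : ℂ) with hc
  have hmem : ∀ p : (Σ _ : ℤ, ℤ), ((p.2 : ℂ) + (p.1 : ℂ) * ω) ∈ R :=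
    fun p => (hR.mem _).2 ⟨p.2, p.1, rfl⟩
  let f : (Σ _ : ℤ, ℤ) → R := fun p => a + κ * ⟨(p.2 : ℂ) + (p.1 : ℂ) * ω, hmem p⟩
  let F : Finset (Σ _ : ℤ, ℤ) :=
    (Finset.Icc ⌈(-ρ - c.im) / ω.im⌉ ⌊(ρ - c.im) / ω.im⌋).sigma
      (fun k => Finset.Icc ⌈-ρ - ((k : ℂ) * ω + c).re⌉ ⌊ρ - ((k : ℂ) * ω + c).re⌋)
  have hsub : {α : R | Complex.normSq (α : ℂ) ≤ y ∧ κ ∣ α - a} ⊆ f '' (F : Set (Σ _ : ℤ, ℤ)) := by
    rintro α ⟨hα, γ, hγ⟩
    obtain ⟨x, k, hxk⟩ := (hR.mem (γ : ℂ)).1 γ.2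
    have hαe : α = a + κ * γ := by rw [← hγ]; ring
    have hαc : (α : ℂ) = (a : ℂ) + (κ : ℂ) * (γ : ℂ) := by rw [hαe]; rfl
    have hβ : (α : ℂ) / (κ : ℂ) = (x : ℂ) + ((k : ℂ) * ω + c) := by
      rw [hαc, hxk, hc]
      field_simp
      ring
    have hβn : Complex.normSq ((x : ℂ) + ((k : ℂ) * ω + c)) ≤ y / Complex.normSq (κ : ℂ) := by
      rw [← hβ, Complex.normSq_div]
      gcongr
    rw [Complex.normSq_apply] at hβn
    have hre : |((x : ℂ) + ((k : ℂ) * ω + c)).re| ≤ ρ := by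
      apply Real.abs_le_sqrt
      nlinarith [mul_self_nonneg ((x : ℂ) + ((k : ℂ) * ω + c)).im]
    have him : |((x : ℂ) + ((k : ℂ) * ω + c)).im| ≤ ρ := by
      apply Real.abs_le_sqrt
      nlinarith [mul_self_nonneg ((x : ℂ) + ((k : ℂ) * ω + c)).re]
    have e1 : ((x : ℂ) + ((k : ℂ) * ω + c)).im = (k : ℝ) * ω.im + c.im := by
      simp
    have e2 : ((x : ℂ) + ((k : ℂ) * ω + c)).re = (x : ℝ) + ((k : ℂ) * ω + c).re := by
      rw [Complex.add_re]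
      simp
    rw [e1] at him
    rw [e2] at hre
    rw [abs_le] at him hre
    refine ⟨⟨k, x⟩, ?_, ?_⟩
    · simp only [F, Finset.coe_sigma, Set.mem_sigma_iff, Finset.coe_Icc, Set.mem_Icc]
      refine ⟨⟨?_, ?_⟩, ?_, ?_⟩
      · rw [Int.ceil_le, div_le_iff₀ hω]
        linarith
      · rw [Int.le_floor, le_div_iff₀ hω]
        linarith
      · rw [Int.ceil_le]
        linarith
      · rw [Int.le_floor]
        linarith
    · rw [hαe]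
      simp only [f]
      congr 2
      exact Subtype.ext hxk.symm
  have hfin : (f '' (F : Set (Σ _ : ℤ, ℤ))).Finite := F.finite_toSet.image f
  refine ⟨hfin.subset hsub, ?_⟩
  have h1 : Set.ncard {α : R | Complex.normSq (α : ℂ) ≤ y ∧ κ ∣ α - a} ≤ F.card := by
    refine (Set.ncard_le_ncard hsub hfin).trans ?_
    refine (Set.ncard_image_le F.finite_toSet).trans ?_
    rw [Set.ncard_coe_finset]
  have h2 : (F.card : ℝ) ≤ (2 * ρ / ω.im + 1) * (2 * ρ + 1) := by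
    rw [Finset.card_sigma]
    push_cast
    calc ∑ k ∈ Finset.Icc ⌈(-ρ - c.im) / ω.im⌉ ⌊(ρ - c.im) / ω.im⌋,
          ((Finset.Icc ⌈-ρ - ((k : ℂ) * ω + c).re⌉ ⌊ρ - ((k : ℂ) * ω + c).re⌋).card : ℝ)
        ≤ ∑ _k ∈ Finset.Icc ⌈(-ρ - c.im) / ω.im⌉ ⌊(ρ - c.im) / ω.im⌋, (2 * ρ + 1) := by
          refine Finset.sum_le_sum fun k _ => ?_
          have := card_Icc_le (-ρ - ((k : ℂ) * ω + c).re) (ρ - ((k : ℂ) * ω + c).re) (by linarith)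
          linarith
      _ = ((Finset.Icc ⌈(-ρ - c.im) / ω.im⌉ ⌊(ρ - c.im) / ω.im⌋).card : ℝ) * (2 * ρ + 1) := by
          rw [Finset.sum_const, nsmul_eq_mul]
      _ ≤ (2 * ρ / ω.im + 1) * (2 * ρ + 1) := by
          apply mul_le_mul_of_nonneg_right _ (by linarith)
          have h3 := card_Icc_le ((-ρ - c.im) / ω.im) ((ρ - c.im) / ω.im) (by gcongr; linarith)
          have h4 : (ρ - c.im) / ω.im - (-ρ - c.im) / ω.im = 2 * ρ / ω.im := by ring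
          rw [h4] at h3
          exact h3
  have h3 : (Set.ncard {α : R | Complex.normSq (α : ℂ) ≤ y ∧ κ ∣ α - a} : ℝ) ≤ F.card := by
    exact_mod_cast h1
  refine h3.trans (h2.trans ?_)
  rw [← hρ2]
  have h4 : 2 * ρ ≤ 1 + ρ ^ 2 := by nlinarith [sq_nonneg (ρ - 1)]
  have h5 : 0 < 1 / ω.im := by positivity
  have e : (2 * ρ / ω.im + 1) * (2 * ρ + 1) =
      (1 / ω.im) * (4 * ρ ^ 2 + 2 * ρ) + (2 * ρ + 1) := by ring
  have e' : (5 / ω.im + 2) * (1 + ρ ^ 2) = (1 / ω.im) * (5 * (1 + ρ ^ 2)) + 2 * (1 + ρ ^ 2) := by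
    ring
  rw [e, e']
  have h6 : (1 / ω.im) * (4 * ρ ^ 2 + 2 * ρ) ≤ (1 / ω.im) * (5 * (1 + ρ ^ 2)) := by
    apply mul_le_mul_of_nonneg_left _ h5.le
    nlinarith
  nlinarith

end Pool.Agent.W334.CM
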